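import Pool.Agent.W780.SN.Stm

set_option autoImplicit false

/-!
# The competitor estimate (slices extended radially)
-/

namespace Pool.Agent.W64.SN

open MeasureTheory Set Filter Topology Metric
open scoped ENNReal InnerProductSpace ContDiff
open Pool.Agent.W780.SN

/-- notation -/
abbrev EE (n : ℕ) := EuclideanSpace ℝ (Fin n)

variable {n : ℕ}

theorem hasFDerivAt_norm' (x : EE n) (hx : x ≠ 0) :
    HasFDerivAt (fun y : EE n => ‖y‖) (‖x‖⁻¹ • innerSL ℝ x) x := by
  have h := (hasStrictFDerivAt_norm_sq x).hasFDerivAt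
  have hx0 : 0 < ‖x‖ := norm_pos_iff.mpr hx
  have h2 := h.sqrt (by positivity)
  have e : (fun y : EE n => Real.sqrt (‖y‖ ^ 2)) = fun y => ‖y‖ := by
    funext y; exact Real.sqrt_sq (norm_nonneg y)
  rw [e] at h2
  have e2 : (‖x‖⁻¹ • innerSL ℝ x : EE n →L[ℝ] ℝ) =
      (1 / (2 * Real.sqrt (‖x‖ ^ 2))) • ((2 : ℕ) • innerSL ℝ x) := by
    rw [Real.sqrt_sq hx0.le, ← Nat.cast_smul_eq_nsmul ℝ, smul_smul]
    congr 1
    push_cast
    field_simp
  rw [e2]
  exact h2

/-- the slice of `φ` at radius `r`, extended radially with the profile `χ` -/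
noncomputable def sl (χ : ℝ → ℝ) (φ : EE n → ℝ) (r : ℝ) (x : EE n) : ℝ :=
  χ ‖x‖ * φ ((r / ‖x‖) • x)

theorem fderiv_eq_inner (φ : EE n → ℝ) (p h : EE n) :
    fderiv ℝ φ p h = ⟪gradient φ p, h⟫_ℝ := by
  unfold gradient
  rw [InnerProductSpace.toDual_symm_apply]

theorem sl_grad (χ : ℝ → ℝ) (φ : EE n → ℝ) (r t : ℝ) (θ : EE n) (hχ : Differentiable ℝ χ)
    (hφ : Differentiable ℝ φ) (ht : 0 < t) (hθ : ‖θ‖ = 1) :
    gradient (sl χ φ r) (t • θ) = (deriv χ t * φ (r • θ)) • θ +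
      (χ t * (r / t)) • (gradient φ (r • θ) - ⟪gradient φ (r • θ), θ⟫_ℝ • θ) := by
  have hx : ‖t • θ‖ = t := by rw [norm_smul, hθ, Real.norm_of_nonneg ht.le, mul_one]
  have hx0 : t • θ ≠ 0 := by
    rw [← norm_pos_iff, hx]; exact ht
  have hN := hasFDerivAt_norm' (t • θ) hx0
  rw [hx] at hN
  have hP : (r / ‖t • θ‖) • (t • θ) = r • θ := by
    rw [hx, smul_smul]; congr 1; field_simp
  have h1 : HasFDerivAt (fun y : EE n => χ ‖y‖) (deriv χ t • (t⁻¹ • innerSL ℝ (t • θ))) (t • θ) := by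
    have hc : HasDerivAt χ (deriv χ t) ‖t • θ‖ := by
      rw [hx]; exact (hχ t).hasDerivAt
    exact hc.comp_hasFDerivAt (t • θ) hN
  have h2 : HasFDerivAt (fun y : EE n => r / ‖y‖)
      ((-(r / t ^ 2)) • (t⁻¹ • innerSL ℝ (t • θ))) (t • θ) := by
    have hc : HasDerivAt (fun s : ℝ => r / s) (-(r / t ^ 2)) ‖t • θ‖ := by
      rw [hx]
      have h := (hasDerivAt_inv ht.ne').const_mul r
      have e : -(r / t ^ 2) = r * -(t ^ 2)⁻¹ := by ring
      rw [e]
      exact h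
    exact hc.comp_hasFDerivAt (t • θ) hN
  have h3 : HasFDerivAt (fun y : EE n => (r / ‖y‖) • y)
      ((r / ‖t • θ‖) • ContinuousLinearMap.id ℝ (EE n) +
      (-(r / t ^ 2) • t⁻¹ • (innerSL ℝ) (t • θ)).smulRight (t • θ)) (t • θ) :=
    h2.smul (hasFDerivAt_id (t • θ))
  have h4 : HasFDerivAt φ (fderiv ℝ φ (r • θ)) ((r / ‖t • θ‖) • (t • θ)) := by
    rw [hP]; exact (hφ _).hasFDerivAt
  have h5 : HasFDerivAt (fun y : EE n => φ ((r / ‖y‖) • y)) _ (t • θ) :=
    HasFDerivAt.comp (t • θ) h4 h3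
  have h6 : HasFDerivAt (sl χ φ r)
      (χ ‖t • θ‖ • ((fderiv ℝ φ (r • θ)).comp
          ((r / ‖t • θ‖) • ContinuousLinearMap.id ℝ (EE n) +
            (-(r / t ^ 2) • t⁻¹ • (innerSL ℝ) (t • θ)).smulRight (t • θ))) +
      φ ((r / ‖t • θ‖) • t • θ) • deriv χ t • t⁻¹ • (innerSL ℝ) (t • θ)) (t • θ) := h1.mul h5
  have h7 : HasGradientAt (sl χ φ r) ((deriv χ t * φ (r • θ)) • θ +
      (χ t * (r / t)) • (gradient φ (r • θ) - ⟪gradient φ (r • θ), θ⟫_ℝ • θ)) (t • θ) := by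
    rw [hasGradientAt_iff_hasFDerivAt]
    refine h6.congr_fderiv ?_
    rw [hP, hx]
    ext h
    simp only [InnerProductSpace.toDual_apply_apply, _root_.add_apply,
      _root_.smul_apply, ContinuousLinearMap.comp_apply, smul_eq_mul,
      ContinuousLinearMap.smulRight_apply, innerSL_apply_apply, ContinuousLinearMap.id_apply]
    rw [fderiv_eq_inner]
    simp only [inner_add_left, inner_sub_left, real_inner_smul_left, inner_add_right,
      real_inner_smul_right]
    field_simp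
    ring
  exact h7.gradient


/-- tangential part of the squared gradient -/
noncomputable def qq (φ : EE n → ℝ) (x : EE n) : ℝ :=
  ‖gradient φ x‖ ^ 2 - (⟪gradient φ x, x⟫_ℝ / ‖x‖) ^ 2

theorem qq_smul (φ : EE n → ℝ) (r : ℝ) (θ : EE n) (hr : 0 < r) (hθ : ‖θ‖ = 1) :
    qq φ (r • θ) = ‖gradient φ (r • θ)‖ ^ 2 - ⟪gradient φ (r • θ), θ⟫_ℝ ^ 2 := by
  unfold qq
  have hx : ‖r • θ‖ = r := by rw [norm_smul, hθ, Real.norm_of_nonneg hr.le, mul_one]
  rw [hx, real_inner_smul_right, mul_div_assoc, mul_comm r, div_mul_cancel₀ _ hr.ne']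

theorem qq_nonneg (φ : EE n → ℝ) (x : EE n) : 0 ≤ qq φ x := by
  unfold qq
  rw [sub_nonneg, sq_le_sq, abs_div, abs_norm, abs_norm]
  apply div_le_of_le_mul₀ (norm_nonneg _) (norm_nonneg _)
  exact abs_real_inner_le_norm _ _

theorem sl_smul (χ : ℝ → ℝ) (φ : EE n → ℝ) (r t : ℝ) (θ : EE n) (ht : 0 < t) (hθ : ‖θ‖ = 1) :
    sl χ φ r (t • θ) = χ t * φ (r • θ) := by
  unfold sl
  have hx : ‖t • θ‖ = t := by rw [norm_smul, hθ, Real.norm_of_nonneg ht.le, mul_one]
  rw [hx, smul_smul, div_mul_cancel₀ _ ht.ne']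

theorem sl_grad_sq (χ : ℝ → ℝ) (φ : EE n → ℝ) (r t : ℝ) (θ : EE n) (hχ : Differentiable ℝ χ)
    (hφ : Differentiable ℝ φ) (hr : 0 < r) (ht : 0 < t) (hθ : ‖θ‖ = 1) :
    ‖gradient (sl χ φ r) (t • θ)‖ ^ 2 = (deriv χ t) ^ 2 * φ (r • θ) ^ 2 +
      (χ t) ^ 2 * (r / t) ^ 2 * qq φ (r • θ) := by
  rw [sl_grad χ φ r t θ hχ hφ ht hθ, qq_smul φ r θ hr hθ]
  generalize gradient φ (r • θ) = g
  have e1 : ⟪θ, θ⟫_ℝ = 1 := by rw [real_inner_self_eq_norm_sq, hθ]; norm_num
  have e2 : ⟪g, g⟫_ℝ = ‖g‖ ^ 2 := real_inner_self_eq_norm_sq g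
  have e3 : ⟪θ, g⟫_ℝ = ⟪g, θ⟫_ℝ := real_inner_comm _ _
  rw [← real_inner_self_eq_norm_sq, ← e2]
  simp only [inner_add_left, inner_sub_left, real_inner_smul_left, inner_add_right,
      real_inner_smul_right, inner_sub_right]
  rw [e1, e3]
  ring

/-- smoothness of the radial extension -/
theorem sl_smooth (χ : ℝ → ℝ) (φ : EE n → ℝ) (r a b : ℝ) (ha : 0 < a)
    (hχ : ContDiff ℝ ∞ χ) (hs : tsupport χ ⊆ Icc a b) (hφ : ContDiff ℝ ∞ φ) :
    ContDiff ℝ ∞ (sl χ φ r) := by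
  rw [contDiff_iff_contDiffAt]
  intro x
  by_cases hx : x = 0
  · have h0 : sl χ φ r =ᶠ[𝓝 x] fun _ => 0 := by
      rw [hx]
      filter_upwards [ball_mem_nhds (0 : EE n) ha] with y hy
      unfold sl
      have : χ ‖y‖ = 0 := by
        by_contra hc
        have h1 := hs (subset_tsupport χ hc)
        rw [mem_ball_zero_iff] at hy
        linarith [h1.1]
      rw [this, zero_mul]
    exact contDiffAt_const.congr_of_eventuallyEq h0
  · have hN : ContDiffAt ℝ ∞ (fun y : EE n => ‖y‖) x := contDiffAt_norm ℝ hx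
    have hN0 : ‖x‖ ≠ 0 := norm_ne_zero_iff.mpr hx
    unfold sl
    apply ContDiffAt.mul
    · exact (hχ.contDiffAt).comp x hN
    · apply (hφ.contDiffAt).comp x
      have h1 : ContDiffAt ℝ ∞ (fun y : EE n => r / ‖y‖) x := contDiffAt_const.div hN hN0
      exact h1.smul (contDiffAt_id (𝕜 := ℝ) (E := EE n))

theorem sl_test (Ω : Set (EE n)) (hΩ : Convex ℝ Ω) (h0 : (0 : EE n) ∈ Ω)
    (χ : ℝ → ℝ) (φ : EE n → ℝ) (r a b : ℝ) (ha : 0 < a) (hbr : b ≤ r) (hr : 0 < r)
    (hχ : ContDiff ℝ ∞ χ) (hs : tsupport χ ⊆ Icc a b) (hφ : IsTest Ω φ) :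
    IsTest Ω (sl χ φ r) := by
  let K : Set (EE n) := (fun p : ℝ × EE n => (p.1 / r) • p.2) '' (Icc a b ×ˢ tsupport φ)
  have hK : IsCompact K := by
    apply (isCompact_Icc.prod hφ.compact).image
    fun_prop
  have hKΩ : K ⊆ Ω := by
    rintro x ⟨⟨s, z⟩, ⟨hs1, hz⟩, rfl⟩
    apply hΩ.smul_mem_of_zero_mem h0 (hφ.supp hz)
    simp only at hs1
    constructor
    · exact div_nonneg (ha.le.trans hs1.1) hr.le
    · rw [div_le_one hr]; exact hs1.2.trans hbr
  have hsupp : ∀ x, x ∉ K → sl χ φ r x = 0 := by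
    intro x hx
    by_contra hc
    apply hx
    unfold sl at hc
    have h1 : χ ‖x‖ ≠ 0 := left_ne_zero_of_mul hc
    have h2 : φ ((r / ‖x‖) • x) ≠ 0 := right_ne_zero_of_mul hc
    have h3 := hs (subset_tsupport χ h1)
    have h4 : (r / ‖x‖) • x ∈ tsupport φ := subset_tsupport φ h2
    refine ⟨(‖x‖, (r / ‖x‖) • x), ⟨h3, h4⟩, ?_⟩
    have hx0 : ‖x‖ ≠ 0 := (ha.trans_le h3.1).ne'
    simp only
    rw [smul_smul]
    have : ‖x‖ / r * (r / ‖x‖) = 1 := by field_simp
    rw [this, one_smul]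
  refine ⟨sl_smooth χ φ r a b ha hχ hs hφ.smooth, HasCompactSupport.intro hK hsupp, ?_⟩
  refine (closure_minimal ?_ hK.isClosed).trans hKΩ
  intro x hx
  by_contra hc
  exact hx (hsupp x hc)

theorem grad_continuous (φ : EE n → ℝ) (hφ : ContDiff ℝ ∞ φ) : Continuous (gradient φ) := by
  unfold gradient
  exact (InnerProductSpace.toDual ℝ (EE n)).symm.continuous.comp
    (hφ.continuous_fderiv (by simp))

theorem grad_zero (φ : EE n → ℝ) (x : EE n) (hx : x ∉ tsupport φ) : gradient φ x = 0 := by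
  unfold gradient
  have : fderiv ℝ φ x = 0 := by
    by_contra hc
    exact hx (support_fderiv_subset ℝ hc)
  rw [this, map_zero]

theorem integrable_cc {X : Type*} [TopologicalSpace X] [MeasurableSpace X]
    [OpensMeasurableSpace X] [R1Space X] {μ : Measure X} [IsFiniteMeasureOnCompacts μ]
    (f : X → ℝ) (K : Set X) (hK : IsCompact K)
    (hf : Continuous f) (h : ∀ x, x ∉ K → f x = 0) : Integrable f μ :=
  hf.integrable_of_hasCompactSupport (HasCompactSupport.intro hK h)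

/-- Rayleigh inequality for the slices -/
theorem slice_rayl (hn : 0 < n) (hP : S_Polar) (Ω : Set (EE n)) (hΩ : Convex ℝ Ω)
    (h0 : (0 : EE n) ∈ Ω) (lam : ℝ) (hR : Rayl Ω lam)
    (χ : ℝ → ℝ) (φ : EE n → ℝ) (r a b : ℝ) (ha : 0 < a) (hbr : b ≤ r) (hr : 0 < r)
    (hχ : ContDiff ℝ ∞ χ) (hs : tsupport χ ⊆ Icc a b) (hφ : IsTest Ω φ) :
    lam * ((∫ t in Ioi (0 : ℝ), t ^ (n - 1) * χ t ^ 2) *
      ∫ θ : sphere (0 : EE n) 1, φ (r • (θ : EE n)) ^ 2 ∂(volume : Measure (EE n)).toSphere) ≤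
    (∫ t in Ioi (0 : ℝ), t ^ (n - 1) * (deriv χ t) ^ 2) *
      (∫ θ : sphere (0 : EE n) 1, φ (r • (θ : EE n)) ^ 2 ∂(volume : Measure (EE n)).toSphere) +
    (r / a) ^ 2 * ((∫ t in Ioi (0 : ℝ), t ^ (n - 1) * χ t ^ 2) *
      ∫ θ : sphere (0 : EE n) 1, qq φ (r • (θ : EE n)) ∂(volume : Measure (EE n)).toSphere) := by
  have hT := sl_test Ω hΩ h0 χ φ r a b ha hbr hr hχ hs hφ
  have hray := hR _ hT
  have hgc := grad_continuous _ hT.smooth
  have hi1 : Integrable (fun x => sl χ φ r x ^ 2) := by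
    apply integrable_cc _ (tsupport (sl χ φ r)) hT.compact (hT.smooth.continuous.pow 2)
    intro x hx
    show sl χ φ r x ^ 2 = 0
    rw [image_eq_zero_of_notMem_tsupport hx]; ring
  have hi2 : Integrable (fun x => ‖gradient (sl χ φ r) x‖ ^ 2) := by
    apply integrable_cc _ (tsupport (sl χ φ r)) hT.compact (hgc.norm.pow 2)
    intro x hx
    show ‖gradient (sl χ φ r) x‖ ^ 2 = 0
    rw [grad_zero _ x hx]; simp
  obtain ⟨-, e1⟩ := hP n hn _ hi1
  obtain ⟨j2, e2⟩ := hP n hn _ hi2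
  have hθ : ∀ θ : sphere (0 : EE n) 1, ‖(θ : EE n)‖ = 1 := fun θ => by
    have := θ.2
    rwa [mem_sphere_zero_iff_norm] at this
  set A := ∫ θ : sphere (0 : EE n) 1, φ (r • (θ : EE n)) ^ 2
    ∂(volume : Measure (EE n)).toSphere with hA
  set B := ∫ θ : sphere (0 : EE n) 1, qq φ (r • (θ : EE n))
    ∂(volume : Measure (EE n)).toSphere with hB
  have hφd : Differentiable ℝ φ := hφ.smooth.differentiable (by simp)
  have hχd : Differentiable ℝ χ := hχ.differentiable (by simp)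
  have e1' : ∫ x, sl χ φ r x ^ 2 = (∫ t in Ioi (0 : ℝ), t ^ (n - 1) * χ t ^ 2) * A := by
    rw [e1, ← integral_mul_const]
    apply setIntegral_congr_fun measurableSet_Ioi
    intro t ht
    have ht0 : 0 < t := ht
    simp only
    have e : ∫ θ : sphere (0 : EE n) 1, sl χ φ r (t • (θ : EE n)) ^ 2
        ∂(volume : Measure (EE n)).toSphere = χ t ^ 2 * A := by
      rw [hA, ← integral_const_mul]
      apply integral_congr_ae
      filter_upwards with θ
      rw [sl_smul χ φ r t θ ht0 (hθ θ)]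
      ring
    rw [e]; ring
  have hcφ : Integrable (fun θ : sphere (0 : EE n) 1 => φ (r • (θ : EE n)) ^ 2)
      (volume : Measure (EE n)).toSphere := by
    apply Continuous.integrable_of_hasCompactSupport
    · have := hφ.smooth.continuous
      fun_prop
    · exact HasCompactSupport.of_compactSpace _
  have hqe : ∀ θ : sphere (0 : EE n) 1, qq φ (r • (θ : EE n)) =
      ‖gradient φ (r • (θ : EE n))‖ ^ 2 - ⟪gradient φ (r • (θ : EE n)), (θ : EE n)⟫_ℝ ^ 2 :=
    fun θ => qq_smul φ r θ hr (hθ θ)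
  have hcq : Integrable (fun θ : sphere (0 : EE n) 1 => qq φ (r • (θ : EE n)))
      (volume : Measure (EE n)).toSphere := by
    simp_rw [hqe]
    apply Continuous.integrable_of_hasCompactSupport
    · have := grad_continuous φ hφ.smooth
      fun_prop
    · exact HasCompactSupport.of_compactSpace _
  have hB0 : 0 ≤ B := integral_nonneg fun θ => qq_nonneg _ _
  have e2a : ∀ t ∈ Ioi (0 : ℝ), t ^ (n - 1) * ∫ θ : sphere (0 : EE n) 1,
      ‖gradient (sl χ φ r) (t • (θ : EE n))‖ ^ 2 ∂(volume : Measure (EE n)).toSphere =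
      t ^ (n - 1) * ((deriv χ t) ^ 2 * A + (χ t) ^ 2 * (r / t) ^ 2 * B) := by
    intro t ht
    have ht0 : 0 < t := ht
    congr 1
    rw [hA, hB, ← integral_const_mul, ← integral_const_mul, ← integral_add]
    · apply integral_congr_ae
      filter_upwards with θ
      exact sl_grad_sq χ φ r t θ hχd hφd hr ht0 (hθ θ)
    · exact hcφ.const_mul _
    · exact hcq.const_mul _
  have hχ' : Continuous (deriv χ) := hχ.continuous_deriv (by simp)
  have hK : IsCompact (Icc a b) := isCompact_Icc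
  have hχ0 : ∀ t, t ∉ Icc a b → χ t = 0 := by
    intro t ht
    by_contra hc
    exact ht (hs (subset_tsupport χ hc))
  have hχ'0 : ∀ t, t ∉ Icc a b → deriv χ t = 0 := by
    intro t ht
    by_contra hc
    exact ht (hs (support_deriv_subset hc))
  have k1 : IntegrableOn (fun t : ℝ => t ^ (n - 1) * χ t ^ 2) (Ioi 0) := by
    apply Integrable.integrableOn
    apply Continuous.integrable_of_hasCompactSupport
    · have := hχ.continuous
      fun_prop
    · apply HasCompactSupport.intro hK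
      intro t ht
      rw [hχ0 t ht]; simp
  have k2 : IntegrableOn (fun t : ℝ => t ^ (n - 1) * (deriv χ t) ^ 2) (Ioi 0) := by
    apply Integrable.integrableOn
    apply Continuous.integrable_of_hasCompactSupport
    · fun_prop
    · apply HasCompactSupport.intro hK
      intro t ht
      rw [hχ'0 t ht]; simp
  have e2' : ∫ x, ‖gradient (sl χ φ r) x‖ ^ 2 ≤
      (∫ t in Ioi (0 : ℝ), t ^ (n - 1) * (deriv χ t) ^ 2) * A +
      (r / a) ^ 2 * ((∫ t in Ioi (0 : ℝ), t ^ (n - 1) * χ t ^ 2) * B) := by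
    rw [e2, ← integral_mul_const, ← integral_mul_const, ← integral_const_mul, ← integral_add]
    · apply setIntegral_mono_on j2 _ measurableSet_Ioi
      · intro t ht
        have ht0 : 0 < t := ht
        rw [e2a t ht, mul_add, ← mul_assoc]
        apply add_le_add le_rfl
        by_cases hta : t ∈ Icc a b
        · have h1 : (r / t) ^ 2 ≤ (r / a) ^ 2 := by
            apply pow_le_pow_left₀ (by positivity)
            exact div_le_div_of_nonneg_left hr.le ha hta.1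
          have h2 : 0 ≤ t ^ (n - 1) * χ t ^ 2 * B := by positivity
          calc t ^ (n - 1) * (χ t ^ 2 * (r / t) ^ 2 * B)
              = (r / t) ^ 2 * (t ^ (n - 1) * χ t ^ 2 * B) := by ring
            _ ≤ (r / a) ^ 2 * (t ^ (n - 1) * χ t ^ 2 * B) := mul_le_mul_of_nonneg_right h1 h2
        · rw [hχ0 t hta]; simp
      · exact (k2.mul_const A).add ((k1.mul_const B).const_mul _)
    · exact k2.mul_const A
    · exact (k1.mul_const B).const_mul _
  rw [e1'] at hray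
  exact hray.trans e2'


theorem bump : ∃ χ : ℝ → ℝ, ContDiff ℝ ∞ χ ∧ tsupport χ ⊆ Icc (1 / 4) (3 / 4) ∧
    0 < ∫ t, χ t ^ 2 := by
  let f : ContDiffBump (1 / 2 : ℝ) := ⟨1 / 8, 1 / 4, by norm_num, by norm_num⟩
  have h1 : ContDiff ℝ ∞ (f : ℝ → ℝ) := f.contDiff
  refine ⟨f, h1, ?_, ?_⟩
  · rw [f.tsupport_eq, Real.closedBall_eq_Icc]
    apply Icc_subset_Icc
    · show (1 / 4 : ℝ) ≤ 1 / 2 - 1 / 4
      norm_num
    · show (1 / 2 + 1 / 4 : ℝ) ≤ 3 / 4
      norm_num
  · have hc : Continuous (fun t => (f : ℝ → ℝ) t ^ 2) := h1.continuous.pow 2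
    apply hc.integral_pos_of_hasCompactSupport_nonneg_nonzero (x := 1 / 2)
    · apply HasCompactSupport.intro f.hasCompactSupport
      intro x hx
      rw [image_eq_zero_of_notMem_tsupport hx]; ring
    · intro t; exact sq_nonneg _
    · have : (f : ℝ → ℝ) (1 / 2) = 1 :=
        f.one_of_mem_closedBall (mem_closedBall_self f.rIn_pos.le)
      rw [this]; norm_num

/-- one-dimensional integrals of the scaled profile -/
theorem prof (χ0 : ℝ → ℝ) (h1 : ContDiff ℝ ∞ χ0) (h2 : tsupport χ0 ⊆ Icc (1 / 4) (3 / 4))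
    (m : ℕ) (c l : ℝ) (hc : 0 < c) (hl : 0 < l) :
    ContDiff ℝ ∞ (fun t => χ0 ((t - c) / l)) ∧
    tsupport (fun t => χ0 ((t - c) / l)) ⊆ Icc c (c + l) ∧
    c ^ m * (l * ∫ t, χ0 t ^ 2) ≤ ∫ t in Ioi (0 : ℝ), t ^ m * χ0 ((t - c) / l) ^ 2 ∧
    ∫ t in Ioi (0 : ℝ), t ^ m * (deriv (fun t => χ0 ((t - c) / l)) t) ^ 2 ≤
      (c + l) ^ m * (l⁻¹ * ∫ t, (deriv χ0 t) ^ 2) := by
  have hsm : ContDiff ℝ ∞ (fun t => χ0 ((t - c) / l)) := by
    apply h1.comp
    fun_prop
  have hd : ∀ t, deriv (fun t => χ0 ((t - c) / l)) t = deriv χ0 ((t - c) / l) / l := by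
    intro t
    have e1 : HasDerivAt χ0 (deriv χ0 ((t - c) / l)) ((t - c) / l) :=
      (h1.differentiable (by simp) _).hasDerivAt
    have e2 : HasDerivAt (fun t : ℝ => (t - c) / l) (1 / l) t :=
      ((hasDerivAt_id t).sub_const c).div_const l
    have e3 : HasDerivAt (fun t => χ0 ((t - c) / l)) (deriv χ0 ((t - c) / l) * (1 / l)) t :=
      e1.comp t e2
    rw [e3.deriv]; ring
  have hz : ∀ t, t ∉ Icc c (c + l) → (t - c) / l ∉ Icc (1 / 4 : ℝ) (3 / 4) := by
    intro t ht hh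
    apply ht
    rw [mem_Icc, le_div_iff₀ hl, div_le_iff₀ hl] at hh
    constructor <;> nlinarith [hh.1, hh.2]
  have hz0 : ∀ t, t ∉ Icc c (c + l) → χ0 ((t - c) / l) = 0 := by
    intro t ht
    by_contra hcc
    exact hz t ht (h2 (subset_tsupport χ0 hcc))
  have hz1 : ∀ t, t ∉ Icc c (c + l) → deriv (fun t => χ0 ((t - c) / l)) t = 0 := by
    intro t ht
    rw [hd]
    have : deriv χ0 ((t - c) / l) = 0 := by
      by_contra hcc
      exact hz t ht (h2 (support_deriv_subset hcc))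
    rw [this, zero_div]
  have hK : IsCompact (Icc c (c + l)) := isCompact_Icc
  have hcd : Continuous (deriv (fun t => χ0 ((t - c) / l))) := hsm.continuous_deriv (by simp)
  have i0 : ∀ k : ℕ, Integrable (fun t : ℝ => t ^ k * χ0 ((t - c) / l) ^ 2) := by
    intro k
    apply integrable_cc _ (Icc c (c + l)) hK
    · have := hsm.continuous
      fun_prop
    · intro t ht
      rw [hz0 t ht]; ring
  have i1 : ∀ k : ℕ, Integrable
      (fun t : ℝ => t ^ k * (deriv (fun t => χ0 ((t - c) / l)) t) ^ 2) := by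
    intro k
    apply integrable_cc _ (Icc c (c + l)) hK
    · fun_prop
    · intro t ht
      rw [hz1 t ht]; ring
  refine ⟨hsm, ?_, ?_, ?_⟩
  · apply closure_minimal _ isClosed_Icc
    intro t ht
    by_contra hcc
    exact ht (hz0 t hcc)
  · have e0 : ∫ t in Ioi (0 : ℝ), t ^ m * χ0 ((t - c) / l) ^ 2 =
        ∫ t : ℝ, t ^ m * χ0 ((t - c) / l) ^ 2 := by
      apply setIntegral_eq_integral_of_forall_compl_eq_zero
      intro t ht
      rw [hz0 t (fun hh => ht (hc.trans_le hh.1))]; ring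
    have e1 : ∫ t : ℝ, χ0 ((t - c) / l) ^ 2 = l * ∫ t, χ0 t ^ 2 := by
      have a1 := integral_sub_right_eq_self (μ := (volume : Measure ℝ))
        (fun t : ℝ => χ0 (t / l) ^ 2) c
      have a2 := Measure.integral_comp_div (fun t : ℝ => χ0 t ^ 2) l
      rw [a1, a2, abs_of_pos hl, smul_eq_mul]
    rw [e0, ← e1, ← integral_const_mul]
    have i0' : Integrable (fun t : ℝ => c ^ m * χ0 ((t - c) / l) ^ 2) := by
      have := (i0 0).const_mul (c ^ m)
      simpa using this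
    apply integral_mono i0' (i0 m)
    intro t
    show c ^ m * χ0 ((t - c) / l) ^ 2 ≤ t ^ m * χ0 ((t - c) / l) ^ 2
    by_cases ht : t ∈ Icc c (c + l)
    · exact mul_le_mul_of_nonneg_right (pow_le_pow_left₀ hc.le ht.1 m) (sq_nonneg _)
    · rw [hz0 t ht]; simp
  · have e0 : ∫ t in Ioi (0 : ℝ), t ^ m * (deriv (fun t => χ0 ((t - c) / l)) t) ^ 2 =
        ∫ t : ℝ, t ^ m * (deriv (fun t => χ0 ((t - c) / l)) t) ^ 2 := by
      apply setIntegral_eq_integral_of_forall_compl_eq_zero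
      intro t ht
      rw [hz1 t (fun hh => ht (hc.trans_le hh.1))]; ring
    have e1 : ∫ t : ℝ, (deriv (fun t => χ0 ((t - c) / l)) t) ^ 2 =
        l⁻¹ * ∫ t, (deriv χ0 t) ^ 2 := by
      have a1 := integral_sub_right_eq_self (μ := (volume : Measure ℝ))
        (fun t : ℝ => (deriv χ0 (t / l) / l) ^ 2) c
      have a2 := Measure.integral_comp_div (fun t : ℝ => (deriv χ0 t / l) ^ 2) l
      simp_rw [hd]
      rw [a1, a2, abs_of_pos hl, smul_eq_mul, ← integral_const_mul, ← integral_const_mul]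
      congr 1
      funext t
      field_simp
    rw [e0, ← e1, ← integral_const_mul]
    have i1' : Integrable (fun t : ℝ => (c + l) ^ m *
        (deriv (fun t => χ0 ((t - c) / l)) t) ^ 2) := by
      have := (i1 0).const_mul ((c + l) ^ m)
      simpa using this
    apply integral_mono (i1 m) i1'
    intro t
    show t ^ m * (deriv (fun t => χ0 ((t - c) / l)) t) ^ 2 ≤ (c + l) ^ m *
        (deriv (fun t => χ0 ((t - c) / l)) t) ^ 2
    by_cases ht : t ∈ Icc c (c + l)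
    · exact mul_le_mul_of_nonneg_right (pow_le_pow_left₀ (hc.le.trans ht.1) ht.2 m) (sq_nonneg _)
    · rw [hz1 t ht]; simp

/-- abbreviation: spherical mean (unnormalised) -/
noncomputable def sm (f : EE n → ℝ) (r : ℝ) : ℝ :=
  ∫ θ : sphere (0 : EE n) 1, f (r • (θ : EE n)) ∂(volume : Measure (EE n)).toSphere

theorem slice_est (hn : 0 < n) (hP : S_Polar) : ∃ C : ℝ, 0 < C ∧
    ∀ (Ω : Set (EE n)) (lam r l : ℝ) (φ : EE n → ℝ), Convex ℝ Ω → (0 : EE n) ∈ Ω → Rayl Ω lam →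
      IsTest Ω φ → 0 < l → 2 * l ≤ r →
      lam * sm (fun x => φ x ^ 2) r ≤
        C / l ^ 2 * sm (fun x => φ x ^ 2) r + (1 + 6 * l / r) * sm (qq φ) r := by
  obtain ⟨χ0, h1, h2, h3⟩ := bump
  refine ⟨2 ^ (n - 1) * ((∫ t, (deriv χ0 t) ^ 2) / ∫ t, χ0 t ^ 2) + 1, ?_, ?_⟩
  · have : 0 ≤ ∫ t, (deriv χ0 t) ^ 2 := integral_nonneg fun t => sq_nonneg _
    positivity
  intro Ω lam r l φ hΩ h0 hR hφ hl hlr
  have hc : 0 < r - l := by linarith
  have hr : 0 < r := by linarith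
  obtain ⟨g1, g2, g3, g4⟩ := prof χ0 h1 h2 (n - 1) (r - l) l hc hl
  rw [sub_add_cancel] at g2 g4
  have key := slice_rayl hn hP Ω hΩ h0 lam hR (fun t => χ0 ((t - (r - l)) / l)) φ r (r - l) r hc
    le_rfl hr g1 g2 hφ
  change lam * (_ * sm (fun x => φ x ^ 2) r) ≤ _ * sm (fun x => φ x ^ 2) r +
    _ * (_ * sm (qq φ) r) at key
  have hA0 : 0 ≤ sm (fun x => φ x ^ 2) r := integral_nonneg fun θ => sq_nonneg _
  have hB0 : 0 ≤ sm (qq φ) r := integral_nonneg fun θ => qq_nonneg _ _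
  have hJ1 : 0 ≤ ∫ t, (deriv χ0 t) ^ 2 := integral_nonneg fun t => sq_nonneg _
  generalize sm (fun x => φ x ^ 2) r = A at *
  generalize sm (qq φ) r = B at *
  generalize (∫ t in Ioi (0 : ℝ), t ^ (n - 1) * χ0 ((t - (r - l)) / l) ^ 2) = I0 at *
  generalize (∫ t in Ioi (0 : ℝ), t ^ (n - 1) *
    (deriv (fun t => χ0 ((t - (r - l)) / l)) t) ^ 2) = I1 at *
  generalize (∫ t, χ0 t ^ 2) = J0 at *
  generalize (∫ t, (deriv χ0 t) ^ 2) = J1 at *
  have hcp : 0 < (r - l) ^ (n - 1) := pow_pos hc _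
  have hI0 : 0 < I0 := lt_of_lt_of_le (by positivity) g3
  have hI1 : I1 ≤ (2 ^ (n - 1) * (J1 / J0) + 1) / l ^ 2 * I0 := by
    have f1 : r ^ (n - 1) ≤ 2 ^ (n - 1) * (r - l) ^ (n - 1) := by
      rw [← mul_pow]
      exact pow_le_pow_left₀ hr.le (by linarith) _
    calc I1 ≤ r ^ (n - 1) * (l⁻¹ * J1) := g4
      _ ≤ 2 ^ (n - 1) * (r - l) ^ (n - 1) * (l⁻¹ * J1) :=
          mul_le_mul_of_nonneg_right f1 (by positivity)
      _ = 2 ^ (n - 1) * (J1 / J0) / l ^ 2 * ((r - l) ^ (n - 1) * (l * J0)) := by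
          field_simp
      _ ≤ 2 ^ (n - 1) * (J1 / J0) / l ^ 2 * I0 :=
          mul_le_mul_of_nonneg_left g3 (by positivity)
      _ ≤ (2 ^ (n - 1) * (J1 / J0) + 1) / l ^ 2 * I0 := by
          apply mul_le_mul_of_nonneg_right _ hI0.le
          apply div_le_div_of_nonneg_right _ (by positivity)
          linarith
  have hq : (r / (r - l)) ^ 2 ≤ 1 + 6 * l / r := by
    rw [div_pow, div_le_iff₀ (by positivity)]
    have e : (1 + 6 * l / r) * (r - l) ^ 2 - r ^ 2 =
        (l * (r - 2 * l) * (4 * r - 3 * l)) / r := by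
      field_simp
      ring
    have : 0 ≤ (l * (r - 2 * l) * (4 * r - 3 * l)) / r := by
      apply div_nonneg _ hr.le
      apply mul_nonneg (mul_nonneg hl.le (by linarith)) (by linarith)
    linarith
  have k2 : (lam * A) * I0 ≤ ((2 ^ (n - 1) * (J1 / J0) + 1) / l ^ 2 * A +
      (1 + 6 * l / r) * B) * I0 := by
    calc (lam * A) * I0 = lam * (I0 * A) := by ring
      _ ≤ I1 * A + (r / (r - l)) ^ 2 * (I0 * B) := key
      _ ≤ ((2 ^ (n - 1) * (J1 / J0) + 1) / l ^ 2 * I0) * A + (1 + 6 * l / r) * (I0 * B) :=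
          add_le_add (mul_le_mul_of_nonneg_right hI1 hA0)
            (mul_le_mul_of_nonneg_right hq (by positivity))
      _ = _ := by ring
  exact le_of_mul_le_mul_right k2 hI0


theorem transl_test (Ω : Set (EE n)) (z : EE n) (φ : EE n → ℝ) (hφ : IsTest Ω φ) :
    IsTest ((fun x => z + x) ⁻¹' Ω) (fun x => φ (z + x)) := by
  have e : (fun x => φ (z + x)) = φ ∘ (Homeomorph.addLeft z) := rfl
  refine ⟨?_, ?_, ?_⟩
  · apply hφ.smooth.comp
    fun_prop
  · rw [e]; exact hφ.compact.comp_homeomorph _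
  · rw [e, tsupport_comp_eq_preimage]
    exact preimage_mono hφ.supp

theorem transl_grad (z : EE n) (φ : EE n → ℝ) (x : EE n) :
    gradient (fun x => φ (z + x)) x = gradient φ (z + x) := by
  unfold gradient
  rw [fderiv_comp_add_left]

/-- the estimate for `y0 = 0` -/
theorem compet0 (hn : 0 < n) (hP : S_Polar) : ∃ C : ℝ, 0 < C ∧
    ∀ (Ω : Set (EE n)) (lam D l : ℝ) (φ : EE n → ℝ), Convex ℝ Ω → (0 : EE n) ∈ Ω → Rayl Ω lam →
      IsTest Ω φ → 0 < l → l ≤ D / 8 → (∀ x ∈ ball (0 : EE n) (D / 4), φ x = 0) →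
      lam * ∫ x, φ x ^ 2 ≤ (1 + 24 * l / D) * (∫ x, qq φ x) + C / l ^ 2 * ∫ x, φ x ^ 2 := by
  obtain ⟨C, hC, hS⟩ := slice_est hn hP
  refine ⟨C, hC, ?_⟩
  intro Ω lam D l φ hΩ h0 hR hφ hl hlD hφ0
  have hD : 0 < D := by linarith
  have hg := grad_continuous φ hφ.smooth
  have hg0 : ∀ x ∈ ball (0 : EE n) (D / 4), gradient φ x = 0 := by
    intro x hx
    have h1 : φ =ᶠ[𝓝 x] fun _ => 0 := by
      filter_upwards [isOpen_ball.mem_nhds hx] with y hy
      exact hφ0 y hy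
    unfold gradient
    rw [h1.fderiv_eq]
    simp
  have hqc : Continuous (qq φ) := by
    rw [continuous_iff_continuousAt]
    intro x
    by_cases hx : x = 0
    · have h1 : qq φ =ᶠ[𝓝 x] fun _ => 0 := by
        rw [hx]
        filter_upwards [ball_mem_nhds (0 : EE n) (by positivity : 0 < D / 4)] with y hy
        unfold qq
        rw [hg0 y hy]
        simp
      exact continuousAt_const.congr h1.symm
    · have hN0 : ‖x‖ ≠ 0 := norm_ne_zero_iff.mpr hx
      unfold qq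
      apply ContinuousAt.sub
      · exact (hg.norm.pow 2).continuousAt
      · apply ContinuousAt.pow
        apply ContinuousAt.div _ continuous_norm.continuousAt hN0
        exact (hg.inner continuous_id).continuousAt
  have hi1 : Integrable (fun x => φ x ^ 2) := by
    apply integrable_cc _ (tsupport φ) hφ.compact (hφ.smooth.continuous.pow 2)
    intro x hx
    show φ x ^ 2 = 0
    rw [image_eq_zero_of_notMem_tsupport hx]; ring
  have hi2 : Integrable (qq φ) := by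
    apply integrable_cc _ (tsupport φ) hφ.compact hqc
    intro x hx
    unfold qq
    rw [grad_zero _ x hx]; simp
  obtain ⟨j1, e1⟩ := hP n hn _ hi1
  obtain ⟨j2, e2⟩ := hP n hn _ hi2
  change IntegrableOn (fun t : ℝ => t ^ (n - 1) * sm (fun x => φ x ^ 2) t) (Ioi 0) at j1
  change IntegrableOn (fun t : ℝ => t ^ (n - 1) * sm (qq φ) t) (Ioi 0) at j2
  change _ = ∫ t in Ioi (0 : ℝ), t ^ (n - 1) * sm (fun x => φ x ^ 2) t at e1
  change _ = ∫ t in Ioi (0 : ℝ), t ^ (n - 1) * sm (qq φ) t at e2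
  have hθ : ∀ θ : sphere (0 : EE n) 1, ‖(θ : EE n)‖ = 1 := fun θ => by
    have := θ.2
    rwa [mem_sphere_zero_iff_norm] at this
  rw [e1, e2, ← integral_const_mul, ← integral_const_mul, ← integral_const_mul, ← integral_add]
  · apply setIntegral_mono_on (j1.const_mul _) _ measurableSet_Ioi
    · intro t ht
      have ht0 : 0 < t := ht
      have hA0 : 0 ≤ sm (fun x => φ x ^ 2) t := integral_nonneg fun θ => sq_nonneg _
      have hB0 : 0 ≤ sm (qq φ) t := integral_nonneg fun θ => qq_nonneg _ _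
      by_cases htD : t < D / 4
      · have hz : sm (fun x => φ x ^ 2) t = 0 := by
          unfold sm
          have : ∀ θ : sphere (0 : EE n) 1, φ (t • (θ : EE n)) ^ 2 = 0 := by
            intro θ
            rw [hφ0 _ (by
              rw [mem_ball_zero_iff, norm_smul, hθ, Real.norm_of_nonneg ht0.le, mul_one]
              exact htD)]
            ring
          simp_rw [this]
          simp
        rw [hz]
        simp only [mul_zero, add_zero]
        positivity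
      · rw [not_lt] at htD
        have h1 := hS Ω lam t l φ hΩ h0 hR hφ hl (by linarith)
        have h2 : 6 * l / t ≤ 24 * l / D := by
          rw [div_le_div_iff₀ ht0 hD]
          nlinarith
        have h3 : (1 + 6 * l / t) * sm (qq φ) t ≤ (1 + 24 * l / D) * sm (qq φ) t :=
          mul_le_mul_of_nonneg_right (by linarith) hB0
        have h4 : 0 ≤ t ^ (n - 1) := by positivity
        calc lam * (t ^ (n - 1) * sm (fun x => φ x ^ 2) t)
            = t ^ (n - 1) * (lam * sm (fun x => φ x ^ 2) t) := by ring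
          _ ≤ t ^ (n - 1) * (C / l ^ 2 * sm (fun x => φ x ^ 2) t +
                (1 + 24 * l / D) * sm (qq φ) t) :=
              mul_le_mul_of_nonneg_left (h1.trans (by linarith)) h4
          _ = _ := by ring
    · exact (j2.const_mul _).add (j1.const_mul _)
  · exact j2.const_mul _
  · exact j1.const_mul _

/-- The competitor estimate (slices extended radially), with the parentheses around the
integral that are missing in `Pool.Agent.W780.SN.S_Compet`. -/
def S_Compet1 : Prop := ∀ (n : ℕ), 0 < n → ∃ C : ℝ, 0 < C ∧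
  ∀ (Ω : Set (EuclideanSpace ℝ (Fin n))) (y0 : EuclideanSpace ℝ (Fin n)) (lam D l : ℝ),
  IsOpen Ω → Convex ℝ Ω → y0 ∈ Ω → Rayl Ω lam → 0 ≤ lam → 0 < l → l ≤ D / 8 →
  ∀ φ : EuclideanSpace ℝ (Fin n) → ℝ, IsTest Ω φ → (∀ x ∈ ball y0 (D / 4), φ x = 0) →
  lam * ∫ x, φ x ^ 2 ≤
    (1 + 24 * l / D) *
      (∫ x, (‖gradient φ x‖ ^ 2 - (⟪gradient φ x, x - y0⟫_ℝ / ‖x - y0‖) ^ 2)) +
    C / l ^ 2 * ∫ x, φ x ^ 2

/-- SN-CMP -/
theorem compet1 (hP : S_Polar) : S_Compet1 := by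
  intro n hn
  obtain ⟨C, hC, hS⟩ := compet0 hn hP
  refine ⟨C, hC, ?_⟩
  intro Ω y0 lam D l hO hconv hy0 hR hlam hl hlD φ hφ hφ0
  have hR' : Rayl ((fun x => y0 + x) ⁻¹' Ω) lam := by
    intro v hv
    have hw := transl_test _ (-y0) v hv
    have e : (fun x => -y0 + x) ⁻¹' ((fun x => y0 + x) ⁻¹' Ω) = Ω := by
      ext x; simp
    rw [e] at hw
    have h1 := hR _ hw
    have e1 : ∫ x, v (-y0 + x) ^ 2 = ∫ x, v x ^ 2 :=
      integral_add_left_eq_self (fun x => v x ^ 2) (-y0)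
    have e2 : ∫ x, ‖gradient (fun x => v (-y0 + x)) x‖ ^ 2 = ∫ x, ‖gradient v x‖ ^ 2 := by
      simp_rw [transl_grad]
      exact integral_add_left_eq_self (fun x => ‖gradient v x‖ ^ 2) (-y0)
    rw [e1, e2] at h1
    exact h1
  have hc' : Convex ℝ ((fun x => y0 + x) ⁻¹' Ω) := hconv.translate_preimage_right y0
  have h0' : (0 : EE n) ∈ ((fun x => y0 + x) ⁻¹' Ω) := by
    rw [mem_preimage, add_zero]; exact hy0
  have key := hS _ lam D l (fun x => φ (y0 + x)) hc' h0' hR' (transl_test Ω y0 φ hφ) hl hlD (by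
    intro x hx
    apply hφ0
    rw [mem_ball, dist_eq_norm]
    rw [mem_ball_zero_iff] at hx
    simpa using hx)
  have e1 : ∫ x, φ (y0 + x) ^ 2 = ∫ x, φ x ^ 2 :=
    integral_add_left_eq_self (fun x => φ x ^ 2) y0
  have e2 : ∫ x, qq (fun x => φ (y0 + x)) x =
      ∫ x, (‖gradient φ x‖ ^ 2 - (⟪gradient φ x, x - y0⟫_ℝ / ‖x - y0‖) ^ 2) := by
    have := integral_add_left_eq_self (μ := (volume : Measure (EE n)))
      (fun x => (‖gradient φ x‖ ^ 2 - (⟪gradient φ x, x - y0⟫_ℝ / ‖x - y0‖) ^ 2)) y0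
    rw [← this]
    congr 1
    funext x
    unfold qq
    rw [transl_grad, add_sub_cancel_left]
  rw [e1, e2] at key
  exact key

/-- SN-CMP -/
theorem compet (hP : S_Polar) : S_Compet := compet1 hP

end Pool.Agent.W64.SN
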